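import Pool.Agent.P8H52.RC.Cl

/-!
# Project RC (helper79), part CHO: chordal graphs without `K_4`
-/

set_option autoImplicit false

namespace Pool.Agent.P8H80.RC

open Finset Polynomial Pool.Agent.P8H79.RC

variable {V : Type}

/-- a nonempty chordal graph has a simplicial vertex -/
theorem simp_vertex (G : SimpleGraph V) (T : Finset V) (hT : T.Nonempty)
    (hch : Pool.Agent.H255R3.STC.IsChordal (G.induce (T : Set V))) :
    ∃ v ∈ T, ∀ a ∈ T, ∀ b ∈ T, G.Adj v a → G.Adj v b → a ≠ b → G.Adj a b := by
  classical
  by_cases hcomp : ∀ v ∈ T, ∀ w ∈ T, w ≠ v → G.Adj v w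
  · obtain ⟨v, hv⟩ := hT
    exact ⟨v, hv, fun a ha b hb _ _ hab => hcomp a ha b hb hab.symm⟩
  · push Not at hcomp
    obtain ⟨v, hv, w, hw, hne, hadj⟩ := hcomp
    obtain ⟨z, -, -, -, hz⟩ := Pool.Agent.H255R3.STC.exists_simplicial hch _
      (Finset.univ : Finset (T : Set V)) le_rfl ⟨v, hv⟩ (Finset.mem_univ _) ⟨w, hw⟩
      (Finset.mem_univ _) (fun h => hne (congrArg Subtype.val h)) hadj
    refine ⟨z.1, z.2, fun a ha b hb h1 h2 hab => ?_⟩
    exact hz ⟨a, ha⟩ (Finset.mem_univ _) ⟨b, hb⟩ (Finset.mem_univ _) h1 h2
      (fun h => hab (congrArg Subtype.val h))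

theorem cl_eq (G : SimpleGraph V) (T : Finset V) (k : ℕ)
    [DecidablePred fun S : Finset V => G.IsClique (S : Set V)] :
    cl G T k = ((T.powersetCard k).filter (fun S : Finset V => G.IsClique (S : Set V))).card := by
  rw [Pool.Agent.P8H52.RC.cl_eq]
  congr

/-- cliques with one more vertex -/
theorem cl_succ [DecidableEq V] (G : SimpleGraph V) (T' : Finset V) (v : V)
    [DecidablePred fun a => G.Adj v a] (hv : v ∉ T')
    (hs : ∀ a ∈ T', ∀ b ∈ T', G.Adj v a → G.Adj v b → a ≠ b → G.Adj a b) (k : ℕ) :
    cl G (insert v T') (k + 1) = cl G T' (k + 1) +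
      (T'.filter fun a => G.Adj v a).card.choose k := by
  classical
  rw [cl_eq, cl_eq, Finset.powersetCard_succ_insert hv, Finset.filter_union, Finset.card_union_of_disjoint]
  · congr 1
    rw [← Finset.card_powersetCard, Finset.filter_image, Finset.card_image_of_injOn]
    · congr 1
      ext S
      simp only [Finset.mem_filter, Finset.mem_powersetCard]
      constructor
      · rintro ⟨⟨h1, h2⟩, h3⟩
        refine ⟨fun a ha => ?_, h2⟩
        rw [Finset.mem_filter]
        refine ⟨h1 ha, ?_⟩
        rw [Finset.coe_insert] at h3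
        exact h3 (Set.mem_insert _ _) (Set.mem_insert_of_mem _ ha)
          (fun h => hv (h ▸ h1 ha))
      · rintro ⟨h1, h2⟩
        have h3 : S ⊆ T' := fun a ha => (Finset.mem_filter.1 (h1 ha)).1
        refine ⟨⟨h3, h2⟩, ?_⟩
        rw [Finset.coe_insert]
        intro a ha b hb hab
        rcases ha with rfl | ha
        · rcases hb with rfl | hb
          · exact absurd rfl hab
          · exact (Finset.mem_filter.1 (h1 hb)).2
        · rcases hb with rfl | hb
          · exact (Finset.mem_filter.1 (h1 ha)).2.symm
          · exact hs a (h3 ha) b (h3 hb) (Finset.mem_filter.1 (h1 ha)).2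
              (Finset.mem_filter.1 (h1 hb)).2 hab
    · intro S hS S' hS' h
      simp only [Finset.coe_filter, Finset.mem_powersetCard, Set.mem_ofPred_eq] at hS hS'
      have hvS : v ∉ S := fun h => hv (hS.1.1 h)
      have hvS' : v ∉ S' := fun h => hv (hS'.1.1 h)
      calc S = (insert v S).erase v := (Finset.erase_insert hvS).symm
        _ = (insert v S').erase v := by rw [show insert v S = insert v S' from h]
        _ = S' := Finset.erase_insert hvS'
  · rw [Finset.disjoint_left]
    intro S hS hS'
    simp only [Finset.mem_filter, Finset.mem_powersetCard, Finset.mem_image] at hS hS'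
    obtain ⟨⟨S₀, -, rfl⟩, -⟩ := hS'
    exact hv (hS.1.1 (Finset.mem_insert_self _ _))

/-- the restriction of a colouring -/
def restr (G : SimpleGraph V) {S T : Finset V} (h : S ⊆ T) {q : ℕ}
    (f : (G.induce (T : Set V)).Coloring (Fin q)) : (G.induce (S : Set V)).Coloring (Fin q) :=
  SimpleGraph.Coloring.mk (fun u => f ⟨u.1, h u.2⟩) (fun {u w} huw => f.valid (v := ⟨u.1, h u.2⟩)
    (w := ⟨w.1, h w.2⟩) huw)

theorem cntOn_insert [DecidableEq V] (G : SimpleGraph V) (T' : Finset V) (v : V)
    [DecidablePred fun a => G.Adj v a] (hv : v ∉ T')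
    (hs : ∀ a ∈ T', ∀ b ∈ T', G.Adj v a → G.Adj v b → a ≠ b → G.Adj a b) (q : ℕ) :
    (cntOn G (insert v T') q : ℚ) =
      ((q : ℚ) - (T'.filter fun a => G.Adj v a).card) * cntOn G T' q := by
  classical
  set N := T'.filter fun a => G.Adj v a with hN
  have hsub : T' ⊆ insert v T' := Finset.subset_insert _ _
  have hNT : ∀ a ∈ N, a ∈ T' := fun a ha => (Finset.mem_filter.1 ha).1
  have hNv : ∀ a ∈ N, G.Adj v a := fun a ha => (Finset.mem_filter.1 ha).2
  -- the colours of the neighbours
  let I : (G.induce (T' : Set V)).Coloring (Fin q) → Finset (Fin q) := fun c =>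
    N.attach.image fun a => c ⟨a.1, hNT a.1 a.2⟩
  have hI : ∀ c, (I c).card = N.card := by
    intro c
    rw [Finset.card_image_of_injective, Finset.card_attach]
    intro a b hab
    by_contra hne
    have h1 : a.1 ≠ b.1 := fun h => hne (Subtype.ext h)
    have h2 : G.Adj a.1 b.1 := hs _ (hNT _ a.2) _ (hNT _ b.2) (hNv _ a.2) (hNv _ b.2) h1
    exact c.valid (v := ⟨a.1, hNT _ a.2⟩) (w := ⟨b.1, hNT _ b.2⟩) h2 hab
  have hmem : ∀ c x, x ∈ I c ↔ ∃ a : V, ∃ h : a ∈ T', G.Adj v a ∧ c ⟨a, h⟩ = x := by
    intro c x
    simp only [I, Finset.mem_image, Finset.mem_attach, true_and, Subtype.exists]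
    constructor
    · rintro ⟨a, ha, h⟩
      exact ⟨a, hNT a ha, hNv a ha, h⟩
    · rintro ⟨a, ha, h1, h2⟩
      exact ⟨a, Finset.mem_filter.2 ⟨ha, h1⟩, h2⟩
  let Φ := restr G (q := q) hsub
  have hfib : ∀ c : (G.induce (T' : Set V)).Coloring (Fin q),
      Nat.card {f // Φ f = c} = q - N.card := by
    intro c
    have e : {f // Φ f = c} ≃ {x : Fin q // x ∉ I c} :=
      { toFun := fun f => ⟨f.1 ⟨v, Finset.mem_insert_self _ _⟩, by
          intro hx
          obtain ⟨a, ha, h1, h2⟩ := (hmem c _).1 hx
          have h3 : c ⟨a, ha⟩ = f.1 ⟨a, hsub ha⟩ := (DFunLike.congr_fun f.2 ⟨a, ha⟩).symm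
          rw [h3] at h2
          exact f.1.valid (v := ⟨v, Finset.mem_insert_self _ _⟩) (w := ⟨a, hsub ha⟩) h1 h2.symm⟩
        invFun := fun x => ⟨SimpleGraph.Coloring.mk
          (fun u => if h : u.1 = v then x.1 else c ⟨u.1, by
            have := u.2
            rw [Finset.mem_coe, Finset.mem_insert] at this
            exact this.resolve_left h⟩) (by
            intro u w huw
            have huw' : G.Adj u.1 w.1 := huw
            by_cases hu : u.1 = v
            · by_cases hw : w.1 = v
              · exact absurd (hu.trans hw.symm) huw'.ne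
              · rw [dif_pos hu, dif_neg hw]
                intro hx
                apply x.2
                rw [hmem]
                refine ⟨w.1, _, ?_, hx.symm⟩
                rw [hu] at huw'
                exact huw'
            · by_cases hw : w.1 = v
              · rw [dif_neg hu, dif_pos hw]
                intro hx
                apply x.2
                rw [hmem]
                refine ⟨u.1, _, ?_, hx⟩
                rw [hw] at huw'
                exact huw'.symm
              · rw [dif_neg hu, dif_neg hw]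
                exact c.valid huw'), by
            apply DFunLike.ext
            intro u
            have hu : u.1 ≠ v := fun h => hv (h ▸ u.2)
            show (if h : u.1 = v then x.1 else c ⟨u.1, _⟩) = c u
            rw [dif_neg hu]⟩
        left_inv := by
          intro f
          apply Subtype.ext
          apply DFunLike.ext
          intro u
          show (if h : u.1 = v then f.1 ⟨v, _⟩ else c ⟨u.1, _⟩) = f.1 u
          by_cases hu : u.1 = v
          · rw [dif_pos hu]
            congr 1
            exact Subtype.ext hu.symm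
          · rw [dif_neg hu]
            exact (DFunLike.congr_fun f.2 ⟨u.1, _⟩).symm
        right_inv := by
          intro x
          apply Subtype.ext
          show (if h : v = v then x.1 else c ⟨v, _⟩) = x.1
          rw [dif_pos rfl] }
    rw [Nat.card_congr e, Nat.card_eq_fintype_card, Fintype.card_subtype_compl]
    rw [Fintype.card_fin]
    simp only [Fintype.card_coe, hI]
  have hcard : cntOn G (insert v T') q = cntOn G T' q * (q - N.card) := by
    unfold cntOn
    rw [← Nat.card_congr (Equiv.sigmaFiberEquiv Φ), Nat.card_sigma]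
    rw [Finset.sum_congr rfl (fun c _ => hfib c), Finset.sum_const, Finset.card_univ,
      Nat.card_eq_fintype_card, smul_eq_mul]
  rw [hcard]
  by_cases h0 : cntOn G T' q = 0
  · rw [h0]
    simp
  · have hne : Nonempty ((G.induce (T' : Set V)).Coloring (Fin q)) := by
      by_contra h
      rw [not_nonempty_iff] at h
      exact h0 (Nat.card_of_isEmpty)
    obtain ⟨c⟩ := hne
    have hle : N.card ≤ q := by
      rw [← hI c]
      exact (Finset.card_le_univ _).trans (by rw [Fintype.card_fin])
    push_cast [Nat.cast_sub hle]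
    ring

theorem Z_insert [DecidableEq V] {w : Finset V → ℚ} {G : SimpleGraph V}
    {Z : Finset V → Polynomial ℚ} (hZ : ZFam G w Z) (T' : Finset V) (v : V)
    [DecidablePred fun a => G.Adj v a] (hv : v ∉ T')
    (hs : ∀ a ∈ T', ∀ b ∈ T', G.Adj v a → G.Adj v b → a ≠ b → G.Adj a b) :
    Z (insert v T') = (1 - C ((T'.filter fun a => G.Adj v a).card : ℚ) * X) * Z T' := by
  apply Polynomial.eq_of_infinite_eval_eq
  have hinj : Function.Injective (fun n : ℕ => 1 / ((n + 1 : ℕ) : ℚ)) := by
    intro a b hab
    simp only [one_div] at hab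
    have := inv_injective hab
    exact_mod_cast Nat.succ_injective (by exact_mod_cast this)
  refine (Set.infinite_range_of_injective hinj).mono ?_
  rintro _ ⟨n, rfl⟩
  have hq : 1 ≤ n + 1 := Nat.succ_le_succ (Nat.zero_le _)
  have h1 := hZ.hcnt (insert v T') (n + 1) hq
  have h2 := hZ.hcnt T' (n + 1) hq
  rw [cntOn_insert G T' v hv hs, h2, Finset.card_insert_of_notMem hv] at h1
  have hq0 : ((n + 1 : ℕ) : ℚ) ≠ 0 := by exact_mod_cast (Nat.succ_ne_zero n)
  show Polynomial.eval _ _ = Polynomial.eval _ _
  rw [Polynomial.eval_mul, Polynomial.eval_sub, Polynomial.eval_one, Polynomial.eval_mul,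
    Polynomial.eval_C, Polynomial.eval_X]
  have h3 : ((n + 1 : ℕ) : ℚ) ^ (T'.card + 1) ≠ 0 := pow_ne_zero _ hq0
  apply mul_left_cancel₀ h3
  rw [← h1, pow_succ]
  field_simp

theorem cho : S_CHO := by
  classical
  intro V _ _ G w Z hZ h4 T
  have key : ∀ n : ℕ, ∀ T : Finset V, T.card = n →
      Pool.Agent.H255R3.STC.IsChordal (G.induce (T : Set V)) →
      Z T * (1 - X) ^ (2 * cl G T 3) = (1 - X) ^ (cl G T 2) * (1 - C 2 * X) ^ (cl G T 3) := by
    intro n
    induction n with
    | zero =>
      intro T hT _
      rw [Finset.card_eq_zero] at hT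
      subst hT
      have hc : ∀ k, cl G ∅ (k + 1) = 0 := by
        intro k
        rw [cl_eq, Finset.powersetCard_eq_empty.2 (by simp)]
        simp
      rw [hc 2, hc 1, hZ.one]
      simp
    | succ n ih =>
      intro T hT hch
      have hne : T.Nonempty := by
        rw [← Finset.card_pos, hT]
        exact Nat.succ_pos n
      obtain ⟨v, hv, hs⟩ := simp_vertex G T hne hch
      set T' := T.erase v with hT'
      have hvT' : v ∉ T' := Finset.notMem_erase v T
      have hins : insert v T' = T := Finset.insert_erase hv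
      have hsub : T' ⊆ T := Finset.erase_subset _ _
      have hs' : ∀ a ∈ T', ∀ b ∈ T', G.Adj v a → G.Adj v b → a ≠ b → G.Adj a b :=
        fun a ha b hb => hs a (hsub ha) b (hsub hb)
      have hch' : Pool.Agent.H255R3.STC.IsChordal (G.induce (T' : Set V)) := by
        intro k hk
        refine ⟨fun f => (hch k hk).false ?_⟩
        exact f.trans (G.induceHomOfLE (by exact_mod_cast hsub))
      have hcard : T'.card = n := by
        rw [hT', Finset.card_erase_of_mem hv, hT]
        rfl
      have h1 := ih T' hcard hch'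
      have hZ1 := Z_insert hZ T' v hvT' hs'
      have hc3 := cl_succ G T' v hvT' hs' 2
      have hc2 := cl_succ G T' v hvT' hs' 1
      rw [hins] at hZ1 hc3 hc2
      set d := (T'.filter fun a => G.Adj v a).card with hd
      have hd2 : d ≤ 2 := by
        by_contra hcon
        push Not at hcon
        obtain ⟨S, hS, hS3⟩ := Finset.exists_subset_card_eq (show 3 ≤ d from hcon)
        have hvS : v ∉ S := fun h => hvT' (Finset.mem_filter.1 (hS h)).1
        apply h4 (insert v S)
        rw [SimpleGraph.isNClique_iff, Finset.card_insert_of_notMem hvS, hS3]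
        refine ⟨?_, rfl⟩
        rw [Finset.coe_insert]
        intro a ha b hb hab
        rcases ha with rfl | ha
        · rcases hb with rfl | hb
          · exact absurd rfl hab
          · exact (Finset.mem_filter.1 (hS hb)).2
        · rcases hb with rfl | hb
          · exact (Finset.mem_filter.1 (hS ha)).2.symm
          · exact hs' a (Finset.mem_filter.1 (hS ha)).1 b (Finset.mem_filter.1 (hS hb)).1
              (Finset.mem_filter.1 (hS ha)).2 (Finset.mem_filter.1 (hS hb)).2 hab
      rw [hZ1, hc3, hc2]
      clear_value d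
      generalize cl G T' 3 = t at *
      generalize cl G T' 2 = e at *
      interval_cases d
      · simpa using h1
      · simp only [Nat.choose_one_right, show Nat.choose 1 2 = 0 from rfl, add_zero]
        calc (1 - C ((1 : ℕ) : ℚ) * X) * Z T' * (1 - X) ^ (2 * t)
            = (1 - X) * (Z T' * (1 - X) ^ (2 * t)) := by
              rw [Nat.cast_one, C_1]
              ring
          _ = _ := by rw [h1]; ring
      · simp only [Nat.choose_one_right, show Nat.choose 2 2 = 1 from rfl]
        calc (1 - C ((2 : ℕ) : ℚ) * X) * Z T' * (1 - X) ^ (2 * (t + 1))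
            = (1 - C 2 * X) * (1 - X) ^ 2 * (Z T' * (1 - X) ^ (2 * t)) := by
              rw [show ((2 : ℕ) : ℚ) = 2 from rfl]
              ring
          _ = _ := by rw [h1]; ring
  exact fun hch => key _ T rfl hch

end Pool.Agent.P8H80.RC
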